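import Pool.Agent.TH710.WH.Five

/-! Rationality and unirationality of varieties given by nested sums of high powers. -/

set_option autoImplicit false

open Pool.Agent.W602.GT Pool.Agent.TH710.ND Pool.Agent.TH710.SP Pool.Agent.TH710.WH

namespace Pool.Agent.Results.MP_1dc56d_ag.NestedRationality

/-- Let `V` be an irreducible component of a projective variety in `P^n`, over an algebraically
closed field `k` of characteristic zero (for instance the field of algebraic numbers), given by
equations which are nested sums of few high powers of linear forms. The following are equivalent:
`V` is a linear subspace, `V` is rational, `V` is unirational, `V` is rationally connected, and `V`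
is special. -/
theorem result {k : Type} [Field k] [IsAlgClosed k] [CharZero k] {n : ℕ} (hn : 1 ≤ n) {ι : Type}
    {F : ι → MvPolynomial (Fin (n + 1)) k} {s N H : ℕ}
    (hF : ∀ i, IsNested s N H (F i))
    (hN : n * ((H + 1) * (2 * s * (2 * s)) * ((2 * s + 1) *
      ((2 * s - 1) * (2 * s - 2) / 2))) + 1 ≤ N)
    {K : Type} [Field K] [Algebra k K] {w : ℕ} {y : Fin (n + 1) → K}
    (hy : SubVar F K w y) (hcomp : IsComponent F y) :
    [IsLinear k y, PurelyTranscendental k K, Unirational k y, RationallyConnected k y,
      Special k K w (fun _ => False)].TFAE :=
  five hn hF (bnd_le hN) hy hcomp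

end Pool.Agent.Results.MP_1dc56d_ag.NestedRationality
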